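import Pool.Agent.Helper25_CN2.Stmts
import Pool.Agent.Helper25_CON.PDLem

set_option autoImplicit false

/-!
# Squad CN2, modules G_SUM and K_GRP
-/

noncomputable section

namespace Pool.Agent.CN2.H39

open Pool.Agent.H25Cong Pool.Agent.CON Pool.Agent.CN2

/-- the components with the ranks of their types -/
theorem comps (h1 : T_RK) {M : Type} [AddCommGroup M] {b : M → M → ℤ} {k : ℕ} {C : Fin k → Set M}
    {s : Fin k → ℤ} {τ : Fin k → Ty} (hb : PD b) (hC : CT b C s τ) :
    Comps b C s fun i => (τ i).rk where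
  irr := hC.irr
  orth := hC.orth
  gen := hC.gen
  rk i := (h1 M b (C i) (s i) (τ i) hb (hC.irr i) (hC.ty i) _).2 le_rfl
  rk' i h := by
    have := (h1 M b (C i) (s i) (τ i) hb (hC.irr i) (hC.ty i) _).1 h
    omega

theorem k_GRP (h1 : H_GRP) (h2 : T_RK) : K_GRP := by
  intro M _ b k C s τ hb hC hbad T1 T2 hd hc1 hc2
  exact hbad (h1 M b k C s _ T1 T2 hb (comps h2 hb hC) hd hc1 hc2)

/-- the sum of orthogonal independent families -/
theorem li_sigma {M : Type} [AddCommGroup M] {b : M → M → ℤ} {k : ℕ} {r : Fin k → ℕ}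
    (hb : PD b) (c : (i : Fin k) → Fin (r i) → M) (hc : ∀ i, LinearIndependent ℤ (c i))
    (ho : ∀ i j, i ≠ j → ∀ a a', b (c i a) (c j a') = 0) :
    LinearIndependent ℤ (fun p : (Σ i, Fin (r i)) => c p.1 p.2) := by
  classical
  rw [Fintype.linearIndependent_iff]
  intro g hg
  rw [Fintype.sum_sigma] at hg
  have h1 : ∀ i j, i ≠ j → b (∑ a, g ⟨i, a⟩ • c i a) (∑ a, g ⟨j, a⟩ • c j a) = 0 := by
    intro i j hij
    rw [hb.sum_left]
    refine Finset.sum_eq_zero fun a _ => ?_
    rw [hb.zsmul_left, hb.sum_right, Finset.sum_eq_zero, mul_zero]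
    intro a' _
    rw [hb.zsmul_right, ho i j hij, mul_zero]
  have h2 : ∀ i, (∑ a, g ⟨i, a⟩ • c i a) = 0 := by
    intro i
    by_contra hne
    have h3 := hb.pos _ hne
    have h4 : b (∑ a, g ⟨i, a⟩ • c i a) (∑ j, ∑ a, g ⟨j, a⟩ • c j a) = 0 := by
      rw [hg, hb.zero_right]
    rw [hb.sum_right, Finset.sum_eq_single i] at h4
    · omega
    · intro j _ hj
      exact h1 i j (Ne.symm hj)
    · intro h
      exact absurd (Finset.mem_univ _) h
  rintro ⟨i, a⟩
  exact Fintype.linearIndependent_iff.1 (hc i) (fun a => g ⟨i, a⟩) (h2 i) a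

theorem g_SUM (h1 : T_RK) (_ : T_GR) (h3 : E_RNK) : G_SUM := by
  classical
  intro M _ _ b k d C s τ hb hC hd hd'
  have hcp := comps h1 hb hC
  apply le_antisymm
  · by_contra hlt
    push Not at hlt
    have hr := hcp.rk
    unfold Rk at hr
    choose c hc1 hc2 using hr
    have h4 := li_sigma hb c hc2 (by
      intro i j hij a a'
      exact hC.orth i j hij _ (hc1 i a) _ (hc1 j a'))
    apply hd'
    have hcard : Fintype.card (Σ i, Fin ((τ i).rk)) = ∑ i, (τ i).rk := by
      rw [Fintype.card_sigma]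
      simp
    have he : Nonempty (Fin (d + 1) ↪ (Σ i, Fin ((τ i).rk))) := by
      apply Function.Embedding.nonempty_of_card_le
      rw [hcard, Fintype.card_fin]
      omega
    obtain ⟨e⟩ := he
    exact ⟨_, h4.comp e e.injective⟩
  · exact h3 M b k d C s _ hb hcp hd

end Pool.Agent.CN2.H39

end
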